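import Mathlib

namespace Pool.Agent.Results.MP_0ee9ff_an.BiCarleman

open MeasureTheory Set ENNReal ContinuousLinearMap

theorem pars {H ι : Type} [NormedAddCommGroup H] [InnerProductSpace ℂ H] (b : HilbertBasis ι ℂ H)
    (v : H) : ∑' i, ‖inner ℂ v (b i)‖ₑ ^ 2 = ‖v‖ₑ ^ 2 := by
  have h := (b.hasSum_inner_mul_inner v v).mapL Complex.reCLM
  have h' : HasSum (fun i => ‖inner ℂ v (b i)‖ ^ 2) (‖v‖ ^ 2) := by
    rw [← inner_self_eq_norm_sq (𝕜 := ℂ), show (fun i => ‖inner ℂ v (b i)‖ ^ 2) =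
      fun i => Complex.reCLM (inner ℂ v (b i) * inner ℂ (b i) v) from
      funext fun i => (sq _).trans ((inner_mul_symm_re_eq_norm v (b i)).trans
        ((norm_mul _ _).trans (congrArg (_ * ·) (norm_inner_symm _ _)))).symm]
    exact h
  simp only [← ofReal_norm, ← ENNReal.ofReal_pow (norm_nonneg _)]
  rw [← ENNReal.ofReal_tsum_of_nonneg (fun _ => sq_nonneg _) h'.summable, h'.tsum_eq]

theorem cnt {H ι : Type} [NormedAddCommGroup H] [InnerProductSpace ℂ H]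
    [TopologicalSpace.SeparableSpace H] {v : ι → H} (h : Orthonormal ℂ v) : Countable ι :=
  Pairwise.countable_of_isOpen_disjoint (s := fun i => Metric.ball (v i) (1 / 2)) (fun i j e =>
    Metric.ball_disjoint_ball (by
      have := norm_inner_le_norm (𝕜 := ℂ) (v i) (v i - v j)
      rw [inner_sub_right, h.2 e, inner_self_eq_norm_sq_to_K, h.1 i] at this
      rw [add_halves, dist_eq_norm]
      simpa using this))
    (fun _ => Metric.isOpen_ball) fun _ => Metric.nonempty_ball.2 (by norm_num)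

variable {μ : Measure ℝ}

theorem elp (f : ℝ → ℂ) : eLpNorm f 2 μ ^ 2 = ∫⁻ x, ‖f x‖ₑ ^ 2 ∂μ := by
  simpa using eLpNorm_nnreal_pow_eq_lintegral (f := f) (μ := μ) (p := 2) two_ne_zero

theorem par2 {ι : Type} (b : HilbertBasis ι ℂ (Lp ℂ 2 μ)) {k : ℝ → ℂ} (hk : MemLp k 2 μ) :
    ∑' i, ‖∫ y, k y * b i y ∂μ‖ₑ ^ 2 = ∫⁻ y, ‖k y‖ₑ ^ 2 ∂μ := by
  have h := pars b (hk.star.toLp _)
  rw [Lp.enorm_def, eLpNorm_congr_ae hk.star.coeFn_toLp, eLpNorm_star, elp] at h
  refine h ▸ tsum_congr fun i => ?_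
  rw [L2.inner_def, integral_congr_ae (hk.star.coeFn_toLp.mono fun y hy => ?_)]
  simp [hy, mul_comm]

theorem hs {ι : Type} [Countable ι] (b : HilbertBasis ι ℂ (Lp ℂ 2 μ)) {k : ℝ → ℝ → ℂ}
    (hk : ∀ᵐ x ∂μ, MemLp (k x) 2 μ) (g : ι → Lp ℂ 2 μ)
    (hg : ∀ i, ∀ᵐ x ∂μ, g i x = ∫ y, k x y * b i y ∂μ) :
    ∑' i, ‖g i‖ₑ ^ 2 = ∫⁻ x, ∫⁻ y, ‖k x y‖ₑ ^ 2 ∂μ ∂μ := by
  simp only [Lp.enorm_def, elp]
  rw [← lintegral_tsum fun i => (Lp.aestronglyMeasurable (g i)).enorm.pow_const 2]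
  refine lintegral_congr_ae ?_
  filter_upwards [hk, ae_all_iff.2 hg] with x h1 h2
  simp only [h2, par2 b h1]

noncomputable def P {E : Set ℝ} (hE : MeasurableSet E) (f : Lp ℂ 2 μ) : Lp ℂ 2 μ :=
  ((Lp.memLp f).indicator hE).toLp _

theorem P_sa {E : Set ℝ} (hE : MeasurableSet E) (f g : Lp ℂ 2 μ) :
    inner ℂ f (P hE g) = inner ℂ (P hE f) g := by
  rw [L2.inner_def, L2.inner_def]
  refine integral_congr_ae ?_
  filter_upwards [((Lp.memLp f).indicator hE).coeFn_toLp, ((Lp.memLp g).indicator hE).coeFn_toLp]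
    with x h1 h2
  simp only [P, h1, h2, indicator]
  split_ifs <;> simp

theorem result (μ : Measure ℝ) [SigmaFinite μ] (N : Lp ℂ 2 μ →L[ℂ] Lp ℂ 2 μ)
    (hN : N ∘L adjoint N = adjoint N ∘L N) (ν : ℝ → ℝ → ℂ)
    (hm : AEStronglyMeasurable (Function.uncurry ν) (μ.prod μ)) (h2 : ∀ᵐ x ∂μ, MemLp (ν x) 2 μ)
    (hν : ∀ f : Lp ℂ 2 μ, ∀ᵐ x ∂μ, N f x = ∫ y, ν x y * f y ∂μ) :
    ∀ᵐ y ∂μ, MemLp (fun x => ν x y) 2 μ := by
  have hn := isStarNormal_iff_norm_eq_adjoint.1 (⟨hN.symm⟩ : IsStarNormal N)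
  have : Fact ((2 : ℝ≥0∞) ≠ ∞) := ⟨ofNat_ne_top⟩
  obtain ⟨w, b, -⟩ := exists_hilbertBasis ℂ (Lp ℂ 2 μ)
  have := cnt b.orthonormal
  have m2 : AEMeasurable (Function.uncurry fun x y => ‖ν x y‖ₑ ^ 2) (μ.prod μ) := hm.enorm.pow_const 2
  obtain ⟨c, cm, hc⟩ := m2.lintegral_prod_right
  let E : ℕ → Set ℝ := fun n => {x | c x ≤ n} ∩ spanningSets μ n
  have hE : ∀ n, MeasurableSet (E n) := fun n =>
    (measurableSet_le cm measurable_const).inter (measurableSet_spanningSets μ n)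
  have key : ∀ n, ∀ᵐ y ∂μ, y ∈ E n → ∫⁻ x, ‖ν x y‖ₑ ^ 2 ∂μ < ∞ := fun n => by
    have e1 := hs b (k := fun x => (E n).indicator (ν x)) (h2.mono fun x h => h.indicator (hE n))
      (fun j => N (P (hE n) (b j))) fun j => (hν _).mono fun x h => h.trans (integral_congr_ae
        (((Lp.memLp (b j)).indicator (hE n)).coeFn_toLp.mono fun y hy => by
          simp only [P, hy, indicator]; split_ifs <;> simp))
    have e2 := hs b (k := (E n).indicator ν) (h2.mono fun x h => by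
      by_cases hx : x ∈ E n <;> simp [hx, h]) (fun i => P (hE n) (N (b i))) fun i => by
        filter_upwards [hν (b i), ((Lp.memLp (N (b i))).indicator (hE n)).coeFn_toLp] with x h1 h3
        by_cases hx : x ∈ E n <;> simp [P, h3, hx, h1]
    have e3 : ∑' j, ‖N (P (hE n) (b j))‖ₑ ^ 2 = ∑' i, ‖P (hE n) (N (b i))‖ₑ ^ 2 := by
      have : ∀ v, ‖N v‖ₑ = ‖adjoint N v‖ₑ := fun v => by rw [← ofReal_norm, hn, ofReal_norm]
      simp only [this, ← pars b (adjoint N _), ← pars b (P _ _)]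
      rw [ENNReal.tsum_comm]
      refine tsum_congr fun i => tsum_congr fun j => ?_
      rw [adjoint_inner_left, ← P_sa, ← P_sa, ← ofReal_norm, norm_inner_symm, ← P_sa, P_sa,
        ofReal_norm]
    have e4 : ∫⁻ x, ∫⁻ y, ‖(E n).indicator ν x y‖ₑ ^ 2 ∂μ ∂μ < ∞ := by
      refine (lintegral_mono_ae (g := (spanningSets μ n).indicator fun _ => (n : ℝ≥0∞))
        (hc.mono fun x h => ?_)).trans_lt ?_
      · by_cases hx : x ∈ E n
        · rw [indicator_of_mem hx, indicator_of_mem hx.2]; exact h.trans_le hx.1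
        · simp [hx]
      · rw [lintegral_indicator_const (measurableSet_spanningSets μ n)]
        exact mul_lt_top (natCast_lt_top n) (measure_spanningSets_lt_top μ n)
    have m3 : AEMeasurable (Function.uncurry fun x y => ‖(E n).indicator (ν x) y‖ₑ ^ 2) (μ.prod μ) :=
      (hm.indicator (measurable_snd (hE n))).enorm.pow_const 2
    rw [← e2, ← e3, e1, lintegral_lintegral_swap m3] at e4
    filter_upwards [ae_lt_top' m3.lintegral_prod_left e4.ne] with y h hy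
    simpa only [indicator_of_mem hy] using h
  filter_upwards [ae_all_iff.2 key, h2, hc, hm.prod_swap.prodMk_left] with y h1 h3 h4 h5
  have fin : c y < ∞ := by rw [← h4, ← elp]; exact pow_lt_top h3.2
  obtain ⟨n, hn⟩ := ENNReal.exists_nat_gt fin.ne
  have := h1 (max n (spanningSetsIndex μ y)) ⟨hn.le.trans (by exact_mod_cast le_max_left _ _),
    mem_spanningSets_of_index_le μ y (le_max_right _ _)⟩
  rw [← elp] at this
  exact ⟨h5, (pow_lt_top_iff.1 this).resolve_right two_ne_zero⟩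

end Pool.Agent.Results.MP_0ee9ff_an.BiCarleman
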